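import Mathlib
import Pool.Agent.R93.Vee44b

/-! Which irreducible labelled ∨-systems are locally determined by matroid and ν-function. -/

namespace Pool.Agent.Results.MP_44d68a_mp.Classification

open Module Submodule Pool.Agent.R93.Vee44

/-- The coordinate covectors on `ℝ²`. -/
noncomputable def coord (i : Fin 2) : Dual ℝ (Fin 2 → ℝ) := LinearMap.proj i

/-- The three covectors `x`, `y`, `x + y` on `ℝ²`. -/
noncomputable def tri : Fin 3 → Dual ℝ (Fin 2 → ℝ) :=
  ![coord 0, coord 1, coord 0 + coord 1]

lemma tri_ind : ∀ e f : Fin 3, e ≠ f → LinearIndependent ℝ ![tri e, tri f] := by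
  intro e f hef
  rw [LinearIndependent.pair_iff]
  intro s t hst
  have h0 := LinearMap.congr_fun hst (Pi.single 0 1)
  have h1 := LinearMap.congr_fun hst (Pi.single 1 1)
  clear hst
  fin_cases e <;> fin_cases f <;>
    first
    | exact absurd rfl hef
    | (simp [tri, coord] at h0 h1 ⊢
       constructor <;> linarith)

lemma tri_ne : ∀ e, tri e ≠ 0 := by
  intro e
  have : ∀ e : Fin 3, ∃ f, e ≠ f := by decide
  obtain ⟨f, hf⟩ := this e
  exact (tri_ind e f hf).ne_zero 0

lemma tri_inj : Function.Injective tri := by
  intro e f h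
  by_contra hef
  have := (tri_ind e f hef).injective (a₁ := 0) (a₂ := 1) (by simpa using h)
  exact absurd this (by decide)

lemma tri_span {e f : Fin 3} (hef : e ≠ f) : span ℝ {tri e, tri f} = ⊤ := by
  apply Submodule.eq_top_of_finrank_eq
  rw [Pool.Agent.TH792.VeeB.fr2 (LinearIndependent.pair_iff.1 (tri_ind e f hef)),
    Subspace.dual_finrank_eq, finrank_fin_fun]

lemma tri_labelled : IsLabelled tri := by
  refine isLabelled_of_two (by rw [finrank_fin_fun]) tri_inj tri_ne ?_
  rw [eq_top_iff, ← tri_span (show (0 : Fin 3) ≠ 1 by decide)]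
  refine span_mono ?_
  rintro _ (rfl | rfl)
  · exact ⟨0, rfl⟩
  · exact ⟨1, rfl⟩

lemma tri_connected : Connected tri := by
  have key : ∀ (S : Set (Fin 3)) (e f g : Fin 3), e ≠ g → e ∈ S → g ∈ S → f ∈ Sᶜ →
      ¬ Disjoint (span ℝ (tri '' S)) (span ℝ (tri '' Sᶜ)) := by
    intro S e f g heg he hg hf hdis
    rw [Submodule.disjoint_def] at hdis
    apply tri_ne f
    refine hdis _ ?_ (subset_span ⟨f, hf, rfl⟩)
    have h1 : span ℝ {tri e, tri g} ≤ span ℝ (tri '' S) := by
      refine span_mono ?_
      rintro _ (rfl | rfl)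
      · exact ⟨e, he, rfl⟩
      · exact ⟨g, hg, rfl⟩
    rw [tri_span heg] at h1
    exact h1 trivial
  intro S ⟨e, he⟩ ⟨f, hf⟩
  have hef : e ≠ f := by rintro rfl; exact hf he
  have h3 : ∀ e f : Fin 3, e ≠ f → ∃ g, g ≠ e ∧ g ≠ f := by decide
  obtain ⟨g, hge, hgf⟩ := h3 e f hef
  by_cases hg : g ∈ S
  · exact key S e f g hge.symm he hg hf
  · have := key Sᶜ f e g hgf.symm hf hg (by rw [compl_compl]; exact he)
    rw [compl_compl] at this
    exact fun h => this h.symm

universe u v

/-- Complete answer to the question whether irreducible labelled ∨-systems are locally determined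
by their matroid and ν-function, in all dimensions and with collinear covectors allowed:
an irreducible labelled ∨-system is locally determined if and only if the dimension is not two and
its covectors are pairwise non-collinear. In dimension two this fails for example for the
irreducible ∨-system formed by the covectors `x`, `y`, `x + y`. -/
theorem result :
    (∀ (V : Type u) (E : Type v) [AddCommGroup V] [Module ℝ V] [FiniteDimensional ℝ V]
      [Fintype E] (a : E → Dual ℝ V), IsLabelled a → Connected a →
      (LocallyDetermined a ↔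
        finrank ℝ V ≠ 2 ∧ ∀ e f, e ≠ f → LinearIndependent ℝ ![a e, a f])) ∧
    (∃ a : Fin 3 → Dual ℝ (Fin 2 → ℝ), IsLabelled a ∧ Connected a ∧
      (∀ e f, e ≠ f → LinearIndependent ℝ ![a e, a f]) ∧ ¬ LocallyDetermined a) :=
  ⟨fun V E _ _ _ _ a ha hc => classification ha hc,
    ⟨tri, tri_labelled, tri_connected, tri_ind,
      not_determined_two tri_labelled tri_connected (by rw [finrank_fin_fun])⟩⟩

end Pool.Agent.Results.MP_44d68a_mp.Classification
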